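import Pool.Agent.Helper26.KN.Goals

/-! Packet NCS: negative correlation of a root edge and an edge disjoint from it. -/

namespace KN.PkNCS

open Finset Pool.Agent.Helper97.RCK KN

set_option linter.unusedSectionVars false

/-- monotone ratios on `[0, M]`. -/
def RM (A U : ℕ → ℝ) (M : ℕ) : Prop :=
  (∀ k, 0 < A k) ∧ ∀ k, k + 1 ≤ M → U (k + 1) * A k ≤ U k * A (k + 1)

lemma RM.step {A U : ℕ → ℝ} {M : ℕ} (h : RM A U (M + 1)) {c : ℝ} (hc : 0 ≤ c) :
    RM (Pool.Agent.Helper97.RCK.step c A) (Pool.Agent.Helper97.RCK.step c U) M := by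
  refine ⟨fun k => ?_, fun k hk => ?_⟩
  · have h1 := h.1 k
    have h2 := h.1 (k + 1)
    unfold Pool.Agent.Helper97.RCK.step
    positivity
  · have h1 := h.2 k (by omega)
    have h2 := h.2 (k + 1) (by omega)
    have p0 := h.1 k
    have p1 := h.1 (k + 1)
    have p2 := h.1 (k + 1 + 1)
    unfold Pool.Agent.Helper97.RCK.step
    set A0 := A k
    set A1 := A (k + 1)
    set A2 := A (k + 1 + 1)
    set U0 := U k
    set U1 := U (k + 1)
    set U2 := U (k + 1 + 1)
    have h3 : U2 * A0 ≤ U0 * A2 := by
      have e1 := mul_le_mul_of_nonneg_right h2 p0.le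
      have e2 := mul_le_mul_of_nonneg_right h1 p2.le
      have e3 : (U2 * A0) * A1 ≤ (U0 * A2) * A1 := by nlinarith
      exact le_of_mul_le_mul_right e3 p1
    have h4 := mul_le_mul_of_nonneg_left h3 hc
    have h5 := mul_le_mul_of_nonneg_left h2 (mul_nonneg hc hc)
    nlinarith

variable {V : Type} [Fintype V] [DecidableEq V]

lemma RM.stp {A U : ℕ → ℝ} {M : ℕ} {x : V → ℝ} (hx : ∀ u, 0 ≤ x u) (C : Finset V)
    (h : RM A U (M + C.card)) : RM (Pool.Agent.Helper97.RCK.stp x C A) (Pool.Agent.Helper97.RCK.stp x C U) M := by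
  induction C using Finset.induction_on generalizing M with
  | empty =>
    have e : ∀ b : ℕ → ℝ, Pool.Agent.Helper97.RCK.stp x (∅ : Finset V) b = b := by
      intro b; funext k; simp [Pool.Agent.Helper97.RCK.stp]
    rw [e, e]
    simpa using h
  | insert v C hv ih =>
    rw [stp_insert x hv, stp_insert x hv]
    rw [Finset.card_insert_of_notMem hv] at h
    exact RM.step (ih (by
      have e : M + (C.card + 1) = M + 1 + C.card := by ring
      rwa [e] at h)) (hx v)

/-- the sums over configurations with the edge `ab` open. -/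
lemma sum_ab (r a b : V) (har : a ≠ r) (hbr : b ≠ r) (x : V → ℝ) (w q : ℝ)
    (F : Finset V → ℝ) :
    ∑ S ∈ (⊤ : SimpleGraph V).edgeFinset.powerset with s(a, b) ∈ S,
        rcWeight r x w q S * F (openNbrs r S) =
      q * ∑ K ∈ (Finset.univ.erase r).powerset,
        ((∏ v ∈ K, x v) * Psi q w {r} K a b) * F K := by
  rw [Finset.sum_filter, edgeFinset_top_eq, sum_E_split (Finset.mem_univ r), Finset.sum_comm,
    Finset.mul_sum]
  refine Finset.sum_congr rfl (fun K hK => ?_)
  rw [Finset.mem_powerset] at hK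
  have hcompl : ({r} : Finset V)ᶜ = Finset.univ.erase r := by
    ext v; simp
  have h1 : ∀ S ∈ (E (Finset.univ.erase r : Finset V)).powerset,
      (if s(a, b) ∈ S ∪ star r K then
        rcWeight r x w q (S ∪ star r K) * F (openNbrs r (S ∪ star r K)) else 0) =
      (q * (∏ v ∈ K, x v) * F K) *
        (if s(a, b) ∈ S then w ^ S.card * q ^ kap ({r} ∪ K) S else 0) := by
    intro S hS
    rw [Finset.mem_powerset] at hS
    have hm : s(a, b) ∈ S ∪ star r K ↔ s(a, b) ∈ S := by
      rw [Finset.mem_union, mem_star]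
      constructor
      · rintro (h | h | h)
        · exact h
        · exact absurd h.1 har
        · exact absurd h.1 hbr
      · exact Or.inl
    simp only [hm]
    split_ifs with h
    · unfold rcWeight
      rw [openNbrs_eq hS hK, filter_eq hS K]
      have h2 := cc_eq hS hK
      unfold cc at h2
      rw [h2]
      ring
    · ring
  rw [Finset.sum_congr rfl h1, ← Finset.mul_sum]
  have h3 : ∑ S ∈ (E (Finset.univ.erase r : Finset V)).powerset,
      (if s(a, b) ∈ S then w ^ S.card * q ^ kap ({r} ∪ K) S else 0) = Psi q w {r} K a b := by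
    unfold Psi
    rw [hcompl, Finset.sum_filter]
  rw [h3]
  ring

/-- summation over the subsets of `insert a (insert b C)`. -/
lemma sumD (x : V → ℝ) {a b : V} {C : Finset V} (ha : a ∉ insert b C) (hb : b ∉ C)
    (Q : Finset V → ℝ) (j : ℕ) (y f : ℕ → ℝ)
    (h0 : ∀ T ⊆ C, Q T = y (j + T.card))
    (h1 : ∀ T ⊆ C, Q (insert b T) = f (j + T.card + 2))
    (h2 : ∀ T ⊆ C, Q (insert a T) = f (j + T.card + 2))
    (h3 : ∀ T ⊆ C, Q (insert a (insert b T)) = f (j + T.card + 2)) :
    ∑ K ∈ (insert a (insert b C)).powerset, (∏ v ∈ K, x v) * Q K =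
      Pool.Agent.Helper97.RCK.stp x C (fun k => y k + (x a + x b + x a * x b) * f (k + 2)) j := by
  rw [Finset.sum_powerset_insert ha, Finset.sum_powerset_insert hb,
    Finset.sum_powerset_insert hb]
  unfold Pool.Agent.Helper97.RCK.stp
  rw [← Finset.sum_add_distrib, ← Finset.sum_add_distrib, ← Finset.sum_add_distrib]
  refine Finset.sum_congr rfl (fun T hT => ?_)
  rw [Finset.mem_powerset] at hT
  have hbT : b ∉ T := fun h => hb (hT h)
  have haT : a ∉ T := fun h => ha (Finset.mem_insert_of_mem (hT h))
  have hab : a ≠ b := fun h => ha (h ▸ Finset.mem_insert_self _ _)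
  have habT : a ∉ insert b T := by
    rw [Finset.mem_insert]; tauto
  rw [h0 T hT, h1 T hT, h2 T hT, h3 T hT, Finset.prod_insert hbT, Finset.prod_insert haT,
    Finset.prod_insert habT, Finset.prod_insert hbT]
  ring

theorem ncs : G_JB → G_YB → G_MONO → G_PSI → G_NCS := by
  intro hJB hYB hMONO hPSI V _ _ r v a b x q w hq hq1 hw hx hvr har hbr hab hva hvb
  set W : Finset V := Finset.univ.erase r with hW
  set C : Finset V := ((W.erase v).erase a).erase b with hC
  set D : Finset V := insert a (insert b C) with hD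
  have hbC : b ∉ C := by simp [hC]
  have haC : a ∉ insert b C := by
    rw [Finset.mem_insert]
    rintro (h | h)
    · exact hab h
    · simp [hC] at h
  have hvC : v ∉ C := by
    intro h
    simp [hC] at h
  have hvD : v ∉ D := by
    rw [hD, Finset.mem_insert, Finset.mem_insert]
    rintro (h | h | h)
    · exact hva h
    · exact hvb h
    · exact hvC h
  have hWD : W = insert v D := by
    ext u
    simp only [hW, hD, hC, Finset.mem_erase, Finset.mem_insert, Finset.mem_univ, and_true]
    constructor
    · intro h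
      by_cases h1 : u = v
      · exact Or.inl h1
      · by_cases h2 : u = a
        · exact Or.inr (Or.inl h2)
        · by_cases h3 : u = b
          · exact Or.inr (Or.inr (Or.inl h3))
          · exact Or.inr (Or.inr (Or.inr ⟨h3, h2, h1, h⟩))
    · rintro (rfl | rfl | rfl | h)
      · exact hvr
      · exact har
      · exact hbr
      · exact h.2.2.2
  have hcard : W.card = C.card + 3 := by
    rw [hWD, Finset.card_insert_of_notMem hvD, hD, Finset.card_insert_of_notMem haC,
      Finset.card_insert_of_notMem hbC]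
  set N : ℕ := W.card with hN
  have hcompl : ({r} : Finset V)ᶜ = W := by
    ext u; simp [hW]
  have hCW : C ⊆ W := by
    intro u hu
    rw [hWD, hD]
    simp [hu]
  have haW : a ∈ W := by simp [hW, har]
  have hbW : b ∈ W := by simp [hW, hbr]
  have hvW : v ∈ W := by simp [hW, hvr]
  -- the values of Psi
  have psi := fun (T : Finset V) (hT : T ⊆ W) =>
    hPSI V q w N {r} T a b hw (by rw [hcompl]) (by rw [hcompl]; exact hT) hab
      (by rw [hcompl]; exact haW) (by rw [hcompl]; exact hbW)
  set c : ℝ := w / (1 + w) with hc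
  have hc0 : 0 ≤ c := by positivity
  have psi0 : ∀ T ⊆ W, a ∉ T → b ∉ T → Psi q w {r} T a b = c * Yn q w N T.card :=
    fun T hT h1 h2 => (psi T hT).1 h1 h2
  have psi1 : ∀ T ⊆ W, a ∉ T → b ∉ T → Psi q w {r} (insert b T) a b =
      c * phi q w N (T.card + 2) := by
    intro T hT h1 h2
    rw [(psi (insert b T) (Finset.insert_subset hbW hT)).2 (Or.inr (Finset.mem_insert_self _ _)),
      Finset.insert_idem, Finset.card_insert_of_notMem, Finset.card_insert_of_notMem h2]
    rw [Finset.mem_insert]; tauto
  have psi2 : ∀ T ⊆ W, a ∉ T → b ∉ T → Psi q w {r} (insert a T) a b =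
      c * phi q w N (T.card + 2) := by
    intro T hT h1 h2
    rw [(psi (insert a T) (Finset.insert_subset haW hT)).2 (Or.inl (Finset.mem_insert_self _ _)),
      Finset.insert_comm b a T, Finset.insert_idem, Finset.card_insert_of_notMem,
      Finset.card_insert_of_notMem h2]
    rw [Finset.mem_insert]; tauto
  have psi3 : ∀ T ⊆ W, a ∉ T → b ∉ T → Psi q w {r} (insert a (insert b T)) a b =
      c * phi q w N (T.card + 2) := by
    intro T hT h1 h2
    rw [(psi (insert a (insert b T)) (Finset.insert_subset haW (Finset.insert_subset hbW hT))).2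
      (Or.inl (Finset.mem_insert_self _ _)),
      Finset.insert_comm b a (insert b T), Finset.insert_idem, Finset.insert_idem,
      Finset.card_insert_of_notMem, Finset.card_insert_of_notMem h2]
    rw [Finset.mem_insert]; tauto
  -- notation
  set An' : ℕ → ℝ := An q w N (x a) (x b) with hAn
  set Un' : ℕ → ℝ := Un q w N (x a) (x b) with hUn
  have eAn : An' = Pool.Agent.Helper97.RCK.step (x a) (Pool.Agent.Helper97.RCK.step (x b) (phi q w N)) := by
    funext k
    simp only [hAn, An, Pool.Agent.Helper97.RCK.step]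
    ring
  -- monotone ratio
  have hRM0 : RM An' Un' (1 + C.card) := by
    refine ⟨fun k => ?_, fun k hk => ?_⟩
    · have p0 := phi_pos hq hw.le N k
      have p1 := phi_pos hq hw.le N (k + 1)
      have p2 := phi_pos hq hw.le N (k + 2)
      have ha0 := hx a
      have hb0 := hx b
      simp only [hAn, An]
      positivity
    · exact hMONO q w hq hq1 hw (hJB q w hq hq1 hw) (hYB q w hq hw) N (by omega) (x a) (x b)
        (hx a) (hx b) k (by omega)
  have hRM := (RM.stp hx C hRM0).2 0 le_rfl
  set A0 := Pool.Agent.Helper97.RCK.stp x C An' 0 with hA0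
  set A1 := Pool.Agent.Helper97.RCK.stp x C An' 1 with hA1
  set U0 := Pool.Agent.Helper97.RCK.stp x C Un' 0 with hU0
  set U1 := Pool.Agent.Helper97.RCK.stp x C Un' 1 with hU1
  have hRM' : U1 * A0 ≤ U0 * A1 := hRM
  -- commutation
  have stp_step : ∀ (d : ℝ) (β : ℕ → ℝ), Pool.Agent.Helper97.RCK.stp x C (Pool.Agent.Helper97.RCK.step d β) =
      Pool.Agent.Helper97.RCK.step d (Pool.Agent.Helper97.RCK.stp x C β) := by
    intro d β
    funext k
    simp only [Pool.Agent.Helper97.RCK.stp, Pool.Agent.Helper97.RCK.step]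
    rw [Finset.mul_sum, ← Finset.sum_add_distrib]
    refine Finset.sum_congr rfl (fun T _ => ?_)
    have : k + 1 + T.card = k + T.card + 1 := by ring
    rw [this]
    ring
  have stpD : Pool.Agent.Helper97.RCK.stp x D (phi q w N) = Pool.Agent.Helper97.RCK.stp x C An' := by
    rw [hD, stp_insert x haC, stp_insert x hbC, eAn, stp_step, stp_step]
  -- total
  have tot : ∑ S ∈ (⊤ : SimpleGraph V).edgeFinset.powerset, rcWeight r x w q S =
      q * (A0 + x v * A1) := by
    have h1 := rcSum_eq r x w q (fun _ => 1)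
    unfold rcSum at h1
    simp only [mul_one] at h1
    rw [h1]
    congr 1
    have h2 : ∑ T ∈ W.powerset, (∏ u ∈ T, x u) * phi q w N T.card =
        Pool.Agent.Helper97.RCK.stp x W (phi q w N) 0 := by
      unfold Pool.Agent.Helper97.RCK.stp
      refine Finset.sum_congr rfl (fun T _ => ?_)
      rw [zero_add]
    rw [h2, hWD, stp_insert x hvD, stpD]
    rfl
  -- sum over the sets containing v
  have sumv : ∀ g : Finset V → ℝ, ∑ K ∈ W.powerset, ((∏ u ∈ K, x u) * g K) *
      (if v ∈ K then (1 : ℝ) else 0) = x v * ∑ K ∈ D.powerset, (∏ u ∈ K, x u) * g (insert v K) := by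
    intro g
    rw [hWD, Finset.sum_powerset_insert hvD]
    have h1 : ∑ K ∈ D.powerset, ((∏ u ∈ K, x u) * g K) * (if v ∈ K then (1 : ℝ) else 0) = 0 := by
      apply Finset.sum_eq_zero
      intro K hK
      rw [Finset.mem_powerset] at hK
      rw [if_neg (fun h => hvD (hK h)), mul_zero]
    rw [h1, zero_add, Finset.mul_sum]
    refine Finset.sum_congr rfl (fun K hK => ?_)
    rw [Finset.mem_powerset] at hK
    rw [if_pos (Finset.mem_insert_self _ _), Finset.prod_insert (fun h => hvD (hK h))]
    ring
  have open_iff : ∀ S : Finset (Sym2 V), v ∈ openNbrs r S ↔ s(r, v) ∈ S := by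
    intro S
    unfold openNbrs
    simp [hvr]
  have totv : ∑ S ∈ (⊤ : SimpleGraph V).edgeFinset.powerset with s(r, v) ∈ S,
      rcWeight r x w q S = q * (x v * A1) := by
    have h1 := rcSum_eq r x w q (fun K => if v ∈ K then 1 else 0)
    unfold rcSum at h1
    simp only [open_iff] at h1
    have h2 : ∑ S ∈ (⊤ : SimpleGraph V).edgeFinset.powerset with s(r, v) ∈ S,
        rcWeight r x w q S = ∑ S ∈ (⊤ : SimpleGraph V).edgeFinset.powerset,
        rcWeight r x w q S * (if s(r, v) ∈ S then 1 else 0) := by
      rw [Finset.sum_filter]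
      refine Finset.sum_congr rfl (fun S _ => ?_)
      split_ifs <;> simp
    rw [h2, h1]
    congr 1
    have h3 := sumv (fun K => phi q w N K.card)
    rw [h3]
    congr 1
    have h4 : A1 = Pool.Agent.Helper97.RCK.stp x D (phi q w N) 1 := by rw [stpD]
    rw [h4]
    unfold Pool.Agent.Helper97.RCK.stp
    refine Finset.sum_congr rfl (fun K hK => ?_)
    rw [Finset.mem_powerset] at hK
    rw [Finset.card_insert_of_notMem (fun h => hvD (hK h)), add_comm K.card 1]
  -- sums with ab
  have hUnf : ∀ j : ℕ, Pool.Agent.Helper97.RCK.stp x C (fun k => c * Yn q w N k + (x a + x b + x a * x b) *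
      (c * phi q w N (k + 2))) j = c * Pool.Agent.Helper97.RCK.stp x C Un' j := by
    intro j
    unfold Pool.Agent.Helper97.RCK.stp
    rw [Finset.mul_sum]
    refine Finset.sum_congr rfl (fun T _ => ?_)
    simp only [hUn, Un]
    ring
  have sum0 : ∑ K ∈ D.powerset, (∏ u ∈ K, x u) * Psi q w {r} K a b = c * U0 := by
    rw [hD, sumD x haC hbC (fun K => Psi q w {r} K a b) 0 (fun k => c * Yn q w N k)
      (fun k => c * phi q w N k)]
    · exact hUnf 0
    · intro T hT
      rw [psi0 T (hT.trans hCW) (fun h => haC (Finset.mem_insert_of_mem (hT h)))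
        (fun h => hbC (hT h)), zero_add]
    · intro T hT
      rw [psi1 T (hT.trans hCW) (fun h => haC (Finset.mem_insert_of_mem (hT h)))
        (fun h => hbC (hT h)), zero_add]
    · intro T hT
      rw [psi2 T (hT.trans hCW) (fun h => haC (Finset.mem_insert_of_mem (hT h)))
        (fun h => hbC (hT h)), zero_add]
    · intro T hT
      rw [psi3 T (hT.trans hCW) (fun h => haC (Finset.mem_insert_of_mem (hT h)))
        (fun h => hbC (hT h)), zero_add]
  have sum1 : ∑ K ∈ D.powerset, (∏ u ∈ K, x u) * Psi q w {r} (insert v K) a b = c * U1 := by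
    have key : ∀ T ⊆ C, insert v T ⊆ W ∧ a ∉ insert v T ∧ b ∉ insert v T ∧
        (insert v T).card = 1 + T.card := by
      intro T hT
      refine ⟨Finset.insert_subset hvW (hT.trans hCW), ?_, ?_, ?_⟩
      · rw [Finset.mem_insert]
        rintro (h | h)
        · exact hva h.symm
        · exact haC (Finset.mem_insert_of_mem (hT h))
      · rw [Finset.mem_insert]
        rintro (h | h)
        · exact hvb h.symm
        · exact hbC (hT h)
      · rw [Finset.card_insert_of_notMem (fun h => hvC (hT h)), add_comm]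
    rw [hD, sumD x haC hbC (fun K => Psi q w {r} (insert v K) a b) 1 (fun k => c * Yn q w N k)
      (fun k => c * phi q w N k)]
    · exact hUnf 1
    · intro T hT
      obtain ⟨k1, k2, k3, k4⟩ := key T hT
      rw [psi0 _ k1 k2 k3, k4]
    · intro T hT
      obtain ⟨k1, k2, k3, k4⟩ := key T hT
      rw [Finset.insert_comm v b T, psi1 _ k1 k2 k3, k4]
    · intro T hT
      obtain ⟨k1, k2, k3, k4⟩ := key T hT
      rw [Finset.insert_comm v a T, psi2 _ k1 k2 k3, k4]
    · intro T hT
      obtain ⟨k1, k2, k3, k4⟩ := key T hT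
      rw [Finset.insert_comm v a (insert b T), Finset.insert_comm v b T, psi3 _ k1 k2 k3, k4]
  have totab : ∑ S ∈ (⊤ : SimpleGraph V).edgeFinset.powerset with s(a, b) ∈ S,
      rcWeight r x w q S = q * (c * U0 + x v * (c * U1)) := by
    have h1 := sum_ab r a b har hbr x w q (fun _ => 1)
    simp only [mul_one] at h1
    rw [h1]
    congr 1
    rw [← hW, hWD, Finset.sum_powerset_insert hvD, sum0]
    congr 1
    rw [← sum1, Finset.mul_sum]
    refine Finset.sum_congr rfl (fun K hK => ?_)
    rw [Finset.mem_powerset] at hK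
    rw [Finset.prod_insert (fun h => hvD (hK h))]
    ring
  have totvab : ∑ S ∈ (⊤ : SimpleGraph V).edgeFinset.powerset with
      (s(r, v) ∈ S ∧ s(a, b) ∈ S), rcWeight r x w q S = q * (x v * (c * U1)) := by
    have h1 := sum_ab r a b har hbr x w q (fun K => if v ∈ K then 1 else 0)
    simp only [open_iff] at h1
    have h2 : ∑ S ∈ (⊤ : SimpleGraph V).edgeFinset.powerset with
        (s(r, v) ∈ S ∧ s(a, b) ∈ S), rcWeight r x w q S =
        ∑ S ∈ (⊤ : SimpleGraph V).edgeFinset.powerset with s(a, b) ∈ S,
        rcWeight r x w q S * (if s(r, v) ∈ S then 1 else 0) := by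
      rw [Finset.sum_filter, Finset.sum_filter]
      refine Finset.sum_congr rfl (fun S _ => ?_)
      by_cases h1 : s(r, v) ∈ S <;> by_cases h2 : s(a, b) ∈ S <;> simp [h1, h2]
    rw [h2, h1]
    congr 1
    rw [← hW, sumv (fun K => Psi q w {r} K a b), sum1]
  rw [totvab, tot, totv, totab]
  have h1 : 0 ≤ q * q * x v * c := by
    have := hx v
    positivity
  have h2 := mul_le_mul_of_nonneg_left hRM' h1
  nlinarith

end KN.PkNCS
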