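import Pool.Agent.Helper70.KN.Goals4

/-! Project KN (MP_20ee5e_ag), packet DM. -/

namespace Pool.Agent.Helper77.KN.DM

open Pool.Agent.Helper70.KN Set Filter Topology

variable {N : ℕ}

lemma dt_cont : Continuous fun p : (Fin N → ℝ) × (Fin N → ℝ) => dt p.2 p.1 := by
  unfold dt
  fun_prop

lemma dt_smul (w x : Fin N → ℝ) (c : ℝ) : dt w (fun j => c * x j) = c * dt w x := by
  unfold dt
  rw [Finset.mul_sum]
  exact Finset.sum_congr rfl fun j _ => by ring

lemma dt_add (w x v : Fin N → ℝ) : dt w (fun j => x j + v j) = dt w x + ∑ j, w j * v j := by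
  unfold dt
  rw [← Finset.sum_add_distrib]
  exact Finset.sum_congr rfl fun j _ => by ring

theorem t (hRH : S_RH) : S_DM := by
  intro N V L ω hcut
  obtain ⟨r1, r2, -, r4, -, -, r7⟩ := hRH N V L ω hcut
  obtain ⟨-, -, hω, hLc, hLne, hLb, -⟩ := hcut
  have hset : ∀ (k : Fin N) (x : Fin N → ℝ), {a | ∃ w ∈ L, dt w x = rho L x ∧ w k = a} =
      (fun w : Fin N → ℝ => w k) '' (L ∩ {w | dt w x = rho L x}) := by
    intro k x
    ext a
    simp only [mem_setOf_eq, mem_image, mem_inter_iff]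
    constructor
    · rintro ⟨w, hw, h1, h2⟩
      exact ⟨w, ⟨hw, h1⟩, h2⟩
    · rintro ⟨w, ⟨hw, h1⟩, h2⟩
      exact ⟨w, hw, h1, h2⟩
  have hcomp : ∀ (k : Fin N) (x : Fin N → ℝ),
      IsCompact {a | ∃ w ∈ L, dt w x = rho L x ∧ w k = a} := by
    intro k x
    rw [hset k x]
    apply IsCompact.image _ (continuous_apply k)
    apply hLc.inter_right
    apply isClosed_eq _ continuous_const
    unfold dt
    fun_prop
  have hne : ∀ (k : Fin N) (x : Fin N → ℝ),
      {a | ∃ w ∈ L, dt w x = rho L x ∧ w k = a}.Nonempty := by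
    intro k x
    obtain ⟨w, hw, h1⟩ := r1 x
    exact ⟨w k, w, hw, h1, rfl⟩
  have p1 : ∀ (k : Fin N) (x : Fin N → ℝ), ∃ w ∈ L, dt w x = rho L x ∧ w k = dm L k x := by
    intro k x
    exact (hcomp k x).sSup_mem (hne k x)
  have p2 : ∀ (k : Fin N) (x : Fin N → ℝ), ∀ w ∈ L, dt w x = rho L x → w k ≤ dm L k x := by
    intro k x w hw h1
    exact le_csSup (hcomp k x).bddAbove ⟨w, hw, h1, rfl⟩
  intro k
  refine ⟨p1 k, p2 k, ?_, ?_, ?_, ?_⟩
  · intro x
    obtain ⟨w, hw, -, h2⟩ := p1 k x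
    rw [← h2]
    exact hLb w hw k
  · apply measurable_of_Ici
    intro a
    apply IsClosed.measurableSet
    apply IsSeqClosed.isClosed
    intro u x hu hx
    have hw : ∀ i, ∃ w ∈ L, dt w (u i) = rho L (u i) ∧ a ≤ w k := by
      intro i
      obtain ⟨w, hw, h1, h2⟩ := p1 k (u i)
      refine ⟨w, hw, h1, ?_⟩
      rw [h2]
      exact hu i
    choose w hwL hw1 hw2 using hw
    obtain ⟨w0, hw0, φ, hφ, hlim⟩ := hLc.tendsto_subseq hwL
    have hx' : Tendsto (u ∘ φ) atTop (𝓝 x) := hx.comp hφ.tendsto_atTop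
    have e1 : Tendsto (fun i => dt ((w ∘ φ) i) ((u ∘ φ) i)) atTop (𝓝 (dt w0 x)) :=
      (dt_cont.tendsto (x, w0)).comp (hx'.prodMk_nhds hlim)
    have e2 : Tendsto (fun i => rho L ((u ∘ φ) i)) atTop (𝓝 (rho L x)) :=
      (r7.tendsto x).comp hx'
    have e3 : dt w0 x = rho L x := by
      refine tendsto_nhds_unique e1 ?_
      refine e2.congr fun i => ?_
      exact (hw1 (φ i)).symm
    have e4 : Tendsto (fun i => (w ∘ φ) i k) atTop (𝓝 (w0 k)) :=
      ((continuous_apply k).tendsto w0).comp hlim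
    have e5 : a ≤ w0 k := ge_of_tendsto' e4 fun i => hw2 (φ i)
    exact e5.trans (p2 k x w0 hw0 e3)
  · intro x c hc
    unfold dm
    congr 1
    ext a
    simp only [mem_setOf_eq]
    rw [r4 x c hc.le]
    constructor
    · rintro ⟨w, hw, h1, h2⟩
      rw [dt_smul] at h1
      exact ⟨w, hw, mul_left_cancel₀ hc.ne' h1, h2⟩
    · rintro ⟨w, hw, h1, h2⟩
      refine ⟨w, hw, ?_, h2⟩
      rw [dt_smul, h1]
  · intro x v hv
    obtain ⟨w, hw, h1⟩ := r1 x
    refine (r2 _ w hw).trans ?_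
    rw [dt_add, h1]
    have : ∑ j, w j * v j ≤ ∑ j, dm L j x * v j :=
      Finset.sum_le_sum fun j _ => mul_le_mul_of_nonneg_right (p2 j x w hw h1) (hv j)
    linarith

end Pool.Agent.Helper77.KN.DM
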